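import Pool.Agent.Helper63.CT.M12

set_option autoImplicit false

/-!
The neighbouring faces of a face are disjoint (module CT-13).
-/

namespace Pool.Agent.Helper17.CT

variable {D : Type} (M : CMap D)

theorem ct13_iter {g : D → D} {x : D} {i j : ℕ} (hi : i < Function.minimalPeriod g x)
    (hj : j < Function.minimalPeriod g x) (h : g^[i] x = g^[j] x) : i = j :=
  Function.iterate_injOn_Iio_minimalPeriod (f := g) (x := x) hi hj h

/-- CT-13 -/
theorem wheel_inj [Finite D] (hp : M.Planar) (hc : M.Con3) (h4 : M.Cyc4)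
    (hb : ∀ d, ¬ M.Face d (M.a d)) (d : D) (c : ℕ) (hc1 : Function.minimalPeriod M.f d = c)
    (hc3 : 3 ≤ c) (n : ℕ → ℕ)
    (hn : ∀ i < c, Function.minimalPeriod M.f (M.a ((M.f)^[i] d)) = n i) :
    (∀ i < c, ∀ i' < c, M.VEq ((M.f)^[i] d) ((M.f)^[i'] d) → i = i') ∧
    (∀ i < c, ∀ i' < c, ∀ j, 2 ≤ j → j + 2 ≤ n i' →
      ¬ M.VEq ((M.f)^[i] d) ((M.f)^[j] (M.a ((M.f)^[i'] d)))) ∧
    (∀ i < c, ∀ j, 2 ≤ j → j + 2 ≤ n i → ∀ i' < c, ∀ j', 2 ≤ j' → j' + 2 ≤ n i' →
      M.VEq ((M.f)^[j] (M.a ((M.f)^[i] d))) ((M.f)^[j'] (M.a ((M.f)^[i'] d))) →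
        i = i' ∧ j = j') := by
  have hhub : ∀ i i', M.Face ((M.f)^[i] d) ((M.f)^[i'] d) := by
    intro i i'
    have h1 : M.Face d ((M.f)^[i] d) := ⟨i, rfl⟩
    have h2 : M.Face d ((M.f)^[i'] d) := ⟨i', rfl⟩
    exact face_trans M (face_symm M h1) h2
  have hnb : ∀ i j, M.Face (M.a ((M.f)^[i] d)) ((M.f)^[j] (M.a ((M.f)^[i] d))) :=
    fun i j => ⟨j, rfl⟩
  have hg : ∀ i < c, ∀ i' < c, M.Face (M.a ((M.f)^[i] d)) (M.a ((M.f)^[i'] d)) → i = i' := by
    intro i hi i' hi' h
    have h1 := faces2 M hp hc hb (hhub i i') h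
    subst hc1
    exact ct13_iter hi hi' h1
  have hper : ∀ i < c, ∀ j < n i, ∀ j' < n i,
      (M.f)^[j] (M.a ((M.f)^[i] d)) = (M.f)^[j'] (M.a ((M.f)^[i] d)) → j = j' := by
    intro i hi j hj j' hj' h
    rw [← hn i hi] at hj hj'
    exact ct13_iter hj hj' h
  have hprev : ∀ i < c, ∃ i' < c, M.f ((M.f)^[i'] d) = (M.f)^[i] d := by
    intro i hi
    rcases Nat.eq_zero_or_pos i with rfl | hi0
    · refine ⟨c - 1, by omega, ?_⟩
      rw [← Function.iterate_succ_apply' M.f]
      have h1 : (c - 1).succ = c := by omega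
      rw [h1, ← hc1]
      exact Function.isPeriodicPt_minimalPeriod M.f d
    · refine ⟨i - 1, by omega, ?_⟩
      rw [← Function.iterate_succ_apply' M.f]
      have h1 : (i - 1).succ = i := by omega
      rw [h1]
  have hs1 : ∀ x, M.s x = (M.f)^[1] (M.a x) := by
    intro x
    simp [CMap.f, M.a2]
  have key : ∀ i < c, ∀ j, 2 ≤ j → j + 2 ≤ n i → ∀ i' < c, ∀ j', i ≠ i' →
      (M.f)^[j'] (M.a ((M.f)^[i'] d)) = M.s ((M.f)^[j] (M.a ((M.f)^[i] d))) → False := by
    intro i hi j hj hjn i' hi' j' hne h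
    set z := (M.f)^[j] (M.a ((M.f)^[i] d)) with hz
    have h1 : M.Face (M.a z) (M.s z) := ⟨1, (hs1 z).symm⟩
    have h2 : M.Face (M.a z) (M.a ((M.f)^[i'] d)) := by
      have h3 := hnb i' j'
      rw [h] at h3
      exact face_trans M h1 (face_symm M h3)
    have h3 : M.Face (M.a (M.a ((M.f)^[i'] d))) ((M.f)^[i] d) := by
      rw [M.a2]
      exact hhub i' i
    rcases faces3 M hp h4 hb (x := (M.f)^[i] d) (y := z) (z := M.a ((M.f)^[i'] d))
      (hnb i j) h2 h3 with ⟨e1, -⟩ | ⟨e1, e2⟩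
    · rw [hs1, hz] at e1
      have := hper i hi j (by omega) 1 (by omega) e1
      omega
    · rw [M.a2] at e1 e2
      have e3 : (M.f)^[j + 1] (M.a ((M.f)^[i] d)) = (M.f)^[0] (M.a ((M.f)^[i] d)) := by
        rw [Function.iterate_succ_apply', ← hz]
        change M.s (M.a z) = M.a ((M.f)^[i] d)
        rw [e2, e1, M.s3]
      have := hper i hi (j + 1) (by omega) 0 (by omega) e3
      omega
  refine ⟨?_, ?_, ?_⟩
  · intro i hi i' hi' h
    rcases h with h | h | h
    · subst hc1
      exact (ct13_iter hi hi' h.symm)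
    · exact absurd (by rw [← h]; exact hhub i i') (not_face_s M hb ((M.f)^[i] d)).1
    · exact absurd (by rw [← h]; exact hhub i i') (not_face_s M hb ((M.f)^[i] d)).2
  · intro i hi i' hi' j hj hjn h
    have h1 := hnb i' j
    rcases h with h | h | h
    · rw [h] at h1
      exact hb _ (face_symm M (face_trans M h1 (hhub i i')))
    · have h2 := hnb i 1
      rw [h, hs1] at h1
      have h3 := hg i hi i' hi' (face_trans M h2 (face_symm M h1))
      subst h3
      rw [hs1] at h
      have := hper i hi j (by omega) 1 (by omega) h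
      omega
    · obtain ⟨k, hk, hk'⟩ := hprev i hi
      have h2 : M.s (M.s ((M.f)^[i] d)) = M.a ((M.f)^[k] d) := by
        rw [← hk']
        change M.s (M.s (M.s (M.a ((M.f)^[k] d)))) = _
        rw [M.s3]
      rw [h2] at h
      rw [h] at h1
      have h3 := hg i' hi' k hk h1
      subst h3
      have := hper i' hi' j (by omega) 0 (by omega) h
      omega
  · intro i hi j hj hjn i' hi' j' hj' hjn' h
    by_cases hne : i = i'
    · subst hne
      refine ⟨rfl, ?_⟩
      have hf : M.Face ((M.f)^[j] (M.a ((M.f)^[i] d))) ((M.f)^[j'] (M.a ((M.f)^[i] d))) :=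
        face_trans M (face_symm M (hnb i j)) (hnb i j')
      rcases h with h | h | h
      · exact (hper i hi j' (by omega) j (by omega) h).symm
      · exact absurd (by rw [← h]; exact hf) (not_face_s M hb _).1
      · exact absurd (by rw [← h]; exact hf) (not_face_s M hb _).2
    · exfalso
      rcases h with h | h | h
      · have h1 := hnb i' j'
        rw [h] at h1
        exact hne (hg i hi i' hi' (face_trans M (hnb i j) (face_symm M h1)))
      · exact key i hi j hj hjn i' hi' j' hne h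
      · refine key i' hi' j' hj' hjn' i hi j (Ne.symm hne) ?_
        rw [h, M.s3]

end Pool.Agent.Helper17.CT
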