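import Pool.Agent.Helper17.CT.Defs

set_option autoImplicit false

/-!
Elementary facts on cubic maps (module CT-10).
-/

namespace Pool.Agent.Helper17.CT

variable {D : Type} (M : CMap D)

theorem ct10_one {p q r : Bool} (h : One p q r) : (p ^^ q ^^ r) = false := by
  rcases h with ⟨rfl, rfl, rfl⟩ | ⟨rfl, rfl, rfl⟩ | ⟨rfl, rfl, rfl⟩ <;> rfl

/-- CT-10a -/
theorem even_of_ham (U : D → Bool) (hU : M.IsHam U) : M.Even U :=
  ⟨hU.acl, fun d => ct10_one (hU.one d)⟩

/-- CT-10c -/
theorem face_eq {φ : D → Bool} (h : ∀ d, φ (M.f d) = φ d) {x y : D} (hxy : M.Face x y) :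
    φ x = φ y := by
  obtain ⟨n, rfl⟩ := hxy
  induction n with
  | zero => rfl
  | succ n ih => rw [Function.iterate_succ_apply', h, ih]

theorem ct10_s_inj : Function.Injective M.s := by
  intro x y h
  rw [← M.s3 x, ← M.s3 y, h]

theorem ct10_a_inj : Function.Injective M.a := by
  intro x y h
  rw [← M.a2 x, ← M.a2 y, h]

theorem ct10_f_inj : Function.Injective M.f := by
  intro x y h
  exact ct10_a_inj M (ct10_s_inj M h)

/-- CT-10d -/
theorem face_symm [Finite D] {x y : D} (h : M.Face x y) : M.Face y x := by
  obtain ⟨n, rfl⟩ := h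
  obtain ⟨p, hp, hx⟩ := (ct10_f_inj M).mem_periodicPts x
  refine ⟨p * (n + 1) - n, ?_⟩
  rw [← Function.iterate_add_apply]
  have h1 : n ≤ p * (n + 1) := by nlinarith
  rw [Nat.sub_add_cancel h1]
  exact (hx.mul_const (n + 1))

/-- CT-10e -/
theorem face_trans {x y z : D} (h : M.Face x y) (h' : M.Face y z) : M.Face x z := by
  obtain ⟨n, rfl⟩ := h
  obtain ⟨m, rfl⟩ := h'
  exact ⟨m + n, Function.iterate_add_apply _ _ _ _⟩

/-- CT-10f -/
theorem not_face_a (hp : M.Planar) (γ : D → Fin 3) (h : M.Tri γ) (d : D) :
    ¬ M.Face d (M.a d) := by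
  intro hf
  obtain ⟨i, hi⟩ : ∃ i : Fin 3, γ d ≠ i := by
    by_contra hcon
    push Not at hcon
    have h0 := hcon 0
    have h1 := hcon 1
    rw [h0] at h1
    exact absurd h1 (by decide)
  obtain ⟨φ, hφ, hZ⟩ := hp _ (even_of_ham M _ (h.ham i))
  have h1 := hZ d
  rw [face_eq M hφ hf] at h1
  simp [hi] at h1

/-- CT-10g -/
theorem not_face_s [Finite D] (hb : ∀ d, ¬ M.Face d (M.a d)) (d : D) :
    ¬ M.Face d (M.s d) ∧ ¬ M.Face d (M.s (M.s d)) := by
  constructor
  · intro h
    have h1 : M.Face (M.a d) (M.s d) := ⟨1, by simp [CMap.f, M.a2]⟩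
    exact hb d (face_trans M h (face_symm M h1))
  · intro h
    have h1 : M.Face (M.a (M.s (M.s d))) d := ⟨1, by simp [CMap.f, M.a2, M.s3]⟩
    exact hb _ (face_symm M (face_trans M h1 h))

section finite

variable [Finite D]

/-- A vertex set is left by an even number of edges of every even edge set. -/
theorem ct10_cut_even (Z : D → Bool) (hZ : M.Even Z) (X : D → Bool) (hX : M.VSet X) :
    Even (Nat.card {d : D // (X d = true ∧ X (M.a d) = false) ∧ Z d = true}) := by
  classical
  have : Fintype D := Fintype.ofFinite D
  let z : D → ZMod 2 := fun d => if Z d = true then 1 else 0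
  have hz : ∀ d, z d + z (M.s d) + z (M.s (M.s d)) = 0 := by
    intro d
    have h := hZ.2 d
    simp only [z]
    revert h
    cases Z d <;> cases Z (M.s d) <;> cases Z (M.s (M.s d)) <;> decide
  have hza : ∀ d, z (M.a d) = z d := by
    intro d
    simp only [z, hZ.1]
  have hs : ∀ g : D → ZMod 2, ∑ d with X d = true, g (M.s d) = ∑ d with X d = true, g d := by
    intro g
    refine Finset.sum_bij' (fun d _ => M.s d) (fun d _ => M.s (M.s d)) ?_ ?_ ?_ ?_ ?_
    · intro d hd
      simp only [Finset.mem_filter, Finset.mem_univ, true_and] at hd ⊢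
      rw [hX, hd]
    · intro d hd
      simp only [Finset.mem_filter, Finset.mem_univ, true_and] at hd ⊢
      rw [hX, hX, hd]
    · intro d _
      exact M.s3 d
    · intro d _
      exact M.s3 d
    · intro d _
      rfl
  have h1 : ∑ d with X d = true, z d = 0 := by
    have h2 : ∑ d with X d = true, (z d + z (M.s d) + z (M.s (M.s d))) = 0 :=
      Finset.sum_eq_zero (fun d _ => hz d)
    rw [Finset.sum_add_distrib, Finset.sum_add_distrib, hs (fun d => z (M.s d)), hs z] at h2
    have h3 : ∀ t : ZMod 2, t + t + t = 0 → t = 0 := by decide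
    exact h3 _ h2
  have h2 : ∑ d with (X d = true ∧ X (M.a d) = true), z d = 0 := by
    refine Finset.sum_involution (fun d _ => M.a d) ?_ ?_ ?_ ?_
    · intro d _
      rw [hza]
      have h3 : ∀ t : ZMod 2, t + t = 0 := by decide
      exact h3 _
    · intro d _ _
      exact M.a1 d
    · intro d hd
      simp only [Finset.mem_filter, Finset.mem_univ, true_and] at hd ⊢
      rw [M.a2]
      exact ⟨hd.2, hd.1⟩
    · intro d _
      exact M.a2 d
  have h3 : ∑ d with (X d = true ∧ X (M.a d) = false), z d = 0 := by
    have h4 : ∑ d with X d = true, z d = ∑ d with (X d = true ∧ X (M.a d) = true), z d +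
        ∑ d with (X d = true ∧ X (M.a d) = false), z d := by
      rw [← Finset.sum_filter_add_sum_filter_not (Finset.univ.filter (fun d => X d = true))
        (fun d => X (M.a d) = true)]
      rw [Finset.filter_filter, Finset.filter_filter]
      simp
    rw [h1, h2, zero_add] at h4
    exact h4.symm
  rw [Nat.card_eq_fintype_card, Fintype.card_subtype]
  rw [← Finset.filter_filter]
  have h5 : (((Finset.univ.filter (fun d => X d = true ∧ X (M.a d) = false)).filter
      (fun d => Z d = true)).card : ZMod 2) = 0 := by
    rw [Finset.card_filter]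
    push_cast
    exact h3
  exact (ZMod.natCast_eq_zero_iff_even).1 h5

end finite

theorem ct10_cross (U X : D → Bool) (hX : M.VSet X) {x y : D} (h : Conn M.s M.a U x y)
    (hx : X x = true) (hy : X y = false) :
    ∃ d, (X d = true ∧ X (M.a d) = false) ∧ U d = true := by
  induction h with
  | refl => rw [hx] at hy; exact absurd hy (by decide)
  | tail _ hst ih =>
    rename_i b c _
    by_cases hb : X b = true
    · obtain ⟨h1, h2, h3⟩ := hst
      rcases h3 with h3 | h3 | h3
      · subst h3
        exact ⟨b, ⟨hb, hy⟩, h1⟩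
      · subst h3
        rw [hX, hb] at hy
        exact absurd hy (by decide)
      · subst h3
        rw [hX, hX, hb] at hy
        exact absurd hy (by decide)
    · exact ih (by simpa using hb)

/-- CT-10b -/
theorem con3_of_tri [Finite D] (γ : D → Fin 3) (h : M.Tri γ) : M.Con3 := by
  classical
  have : Fintype D := Fintype.ofFinite D
  intro X hX hx hy
  obtain ⟨x, hx⟩ := hx
  obtain ⟨y, hy⟩ := hy
  have hU : ∀ (i : Fin 3) (v : D), ∃ w, X w = X v ∧ γ w ≠ i := by
    intro i v
    by_cases hv : γ v = i
    · refine ⟨M.s v, hX v, ?_⟩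
      have := h.prop v
      rw [hv] at this
      exact this
    · exact ⟨v, rfl, hv⟩
  have key : ∀ i : Fin 3, 2 ≤ Nat.card {d : D // (X d = true ∧ X (M.a d) = false) ∧
      decide (γ d ≠ i) = true} := by
    intro i
    obtain ⟨x', hx', hx''⟩ := hU i x
    obtain ⟨y', hy', hy''⟩ := hU i y
    rw [hx] at hx'
    rw [hy] at hy'
    have hc := (h.ham i).conn x' y' (by simpa using hx'') (by simpa using hy'')
    obtain ⟨d, hd1, hd2⟩ := ct10_cross M _ X hX hc hx' hy'
    have hev := ct10_cut_even M _ (even_of_ham M _ (h.ham i)) X hX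
    have hpos : 0 < Nat.card {d : D // (X d = true ∧ X (M.a d) = false) ∧
        decide (γ d ≠ i) = true} := by
      have : Nonempty {d : D // (X d = true ∧ X (M.a d) = false) ∧
        decide (γ d ≠ i) = true} := ⟨⟨d, hd1, hd2⟩⟩
      exact Nat.card_pos
    obtain ⟨m, hm⟩ := hev
    omega
  have h0 := key 0
  have h1 := key 1
  have h2 := key 2
  simp only [Nat.card_eq_fintype_card, Fintype.card_subtype] at h0 h1 h2
  unfold CMap.bd
  rw [Nat.card_eq_fintype_card, Fintype.card_subtype]
  have hsum : ∑ i : Fin 3, (Finset.univ.filter (fun d : D => (X d = true ∧ X (M.a d) = false) ∧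
      decide (γ d ≠ i) = true)).card =
      2 * (Finset.univ.filter (fun d : D => X d = true ∧ X (M.a d) = false)).card := by
    have h3 : ∀ i : Fin 3, (Finset.univ.filter (fun d : D => (X d = true ∧ X (M.a d) = false) ∧
      decide (γ d ≠ i) = true)).card = ∑ d with (X d = true ∧ X (M.a d) = false),
        if γ d ≠ i then 1 else 0 := by
      intro i
      rw [← Finset.filter_filter, Finset.card_filter]
      simp
    simp_rw [h3]
    rw [Finset.sum_comm]
    have h4 : ∀ c : Fin 3, (∑ i : Fin 3, if c ≠ i then 1 else 0) = 2 := by decide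
    simp_rw [h4]
    simp [mul_comm]
  rw [Fin.sum_univ_three] at hsum
  omega

/-- CT-10h -/
theorem simple_of_con3 [Finite D] (h : M.Con3) (hD : 6 < Nat.card D) : M.Simple := by
  classical
  have : Fintype D := Fintype.ofFinite D
  have hs := M.s3
  have ha := M.a2
  have hsm : ∀ x, M.s (M.s x) ≠ x := by
    intro x hx
    have h1 := hs x
    rw [hx] at h1
    exact M.s1 x h1
  -- the vertex set of a list of at most two vertices
  let V : D → D → Bool := fun u d => decide (d = u ∨ d = M.s u ∨ d = M.s (M.s u))
  have hV : ∀ u d, V u d = true ↔ (d = u ∨ d = M.s u ∨ d = M.s (M.s u)) := by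
    intro u d
    simp [V]
  have hVs : ∀ u d, V u (M.s d) = V u d := by
    intro u d
    rw [Bool.eq_iff_iff, hV, hV]
    constructor
    · rintro (h1 | h1 | h1)
      · right; right
        rw [← h1, hs]
      · left
        exact ct10_s_inj M h1
      · right; left
        exact ct10_s_inj M h1
    · rintro (h1 | h1 | h1)
      · right; left; rw [h1]
      · right; right; rw [h1]
      · left; rw [h1, hs]
  have hout : ∀ u v, ∃ d, (V u d || V v d) = false := by
    intro u v
    by_contra hcon
    push Not at hcon
    have hsub : (Finset.univ : Finset D) ⊆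
        {u, M.s u, M.s (M.s u), v, M.s v, M.s (M.s v)} := by
      intro d _
      have h1 := hcon d
      simp only [ne_eq, Bool.not_eq_false, Bool.or_eq_true, hV] at h1
      simp only [Finset.mem_insert, Finset.mem_singleton]
      tauto
    have h1 := Finset.card_le_card hsub
    rw [Finset.card_univ, ← Nat.card_eq_fintype_card] at h1
    have h2 := Finset.card_le_six (a := u) (b := M.s u) (c := M.s (M.s u)) (d := v) (e := M.s v)
      (f := M.s (M.s v))
    omega
  have main : ∀ u v p q, (∀ d, (V u d || V v d) = true → (V u (M.a d) || V v (M.a d)) = false →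
      d = p ∨ d = q) → False := by
    intro u v p q hpq
    have h3 := h (fun d => V u d || V v d) (fun d => by
      change (V u (M.s d) || V v (M.s d)) = _
      rw [hVs, hVs]) ⟨u, by
      change (V u u || V v u) = true
      have : V u u = true := (hV u u).2 (Or.inl rfl)
      rw [this]; rfl⟩ (hout u v)
    unfold CMap.bd at h3
    rw [Nat.card_eq_fintype_card, Fintype.card_subtype] at h3
    beta_reduce at h3
    have hsub : (Finset.univ.filter (fun d : D => (V u d || V v d) = true ∧
        (V u (M.a d) || V v (M.a d)) = false)) ⊆ {p, q} := by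
      intro d hd
      simp only [Finset.mem_filter, Finset.mem_univ, true_and] at hd
      simp only [Finset.mem_insert, Finset.mem_singleton]
      exact hpq d hd.1 hd.2
    have h4 := Finset.card_le_card hsub
    have h5 := Finset.card_le_two (a := p) (b := q)
    omega
  constructor
  · intro d hd
    -- loop at `d`
    refine main d d (M.s d) (M.s (M.s d)) ?_
    intro e he hae
    simp only [Bool.or_self, hV] at he
    simp only [Bool.or_self] at hae
    rcases he with he | he | he
    · exfalso
      subst he
      have h1 : V e (M.a e) = true := (hV _ _).2 hd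
      rw [h1] at hae
      exact absurd hae (by decide)
    · left; exact he
    · right; exact he
  · intro d d' hv hv'
    by_contra hne
    obtain ⟨p, hp⟩ : ∃ p, ∀ e, V d e = true → e = d ∨ e = d' ∨ e = p := by
      rcases hv with hv | hv | hv
      · exact absurd hv.symm hne
      · refine ⟨M.s (M.s d), fun e he => ?_⟩
        rw [hV] at he
        rw [hv]
        exact he
      · refine ⟨M.s d, fun e he => ?_⟩
        rw [hV] at he
        rw [hv]
        tauto
    obtain ⟨q, hq⟩ : ∃ q, ∀ e, V (M.a d) e = true → e = M.a d ∨ e = M.a d' ∨ e = q := by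
      rcases hv' with hv' | hv' | hv'
      · exact absurd (ct10_a_inj M hv').symm hne
      · refine ⟨M.s (M.s (M.a d)), fun e he => ?_⟩
        rw [hV] at he
        rw [hv']
        exact he
      · refine ⟨M.s (M.a d), fun e he => ?_⟩
        rw [hV] at he
        rw [hv']
        tauto
    have h1 : V d d = true := (hV _ _).2 (Or.inl rfl)
    have h2 : V d d' = true := (hV _ _).2 hv
    have h3 : V (M.a d) (M.a d) = true := (hV _ _).2 (Or.inl rfl)
    have h4 : V (M.a d) (M.a d') = true := (hV _ _).2 hv'
    refine main d (M.a d) p q ?_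
    intro e he hae
    rw [Bool.or_eq_true] at he
    rw [Bool.or_eq_false_iff] at hae
    rcases he with he | he
    · rcases hp e he with rfl | rfl | h5
      · rw [h3] at hae; exact absurd hae.2 (by decide)
      · rw [h4] at hae; exact absurd hae.2 (by decide)
      · exact Or.inl h5
    · rcases hq e he with rfl | rfl | h5
      · rw [ha, h1] at hae; exact absurd hae.1 (by decide)
      · rw [ha, h2] at hae; exact absurd hae.1 (by decide)
      · exact Or.inr h5

end Pool.Agent.Helper17.CT
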