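import Pool.Agent.Helper63.CT.M10
import Pool.Agent.Helper78.CT.Cut

set_option autoImplicit false

/-!
Two or three faces around (module CT-12).
-/

namespace Pool.Agent.Helper17.CT

variable {D : Type} (M : CMap D)

/-- CT-12a -/
theorem faces2 [Finite D] (hp : M.Planar) (hc : M.Con3) (hb : ∀ d, ¬ M.Face d (M.a d)) {x y : D}
    (h1 : M.Face x y) (h2 : M.Face (M.a x) (M.a y)) : x = y := by
  classical
  have : Fintype D := Fintype.ofFinite D
  by_contra hne
  have h3 : x ≠ M.a x := fun h => M.a1 x h.symm
  have h4 : x ≠ M.a y := by
    intro h
    have h5 : M.a x = y := by rw [h, M.a2]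
    rw [← h5] at h1
    exact hb x h1
  have h5 : M.a x ≠ y := by
    intro h
    rw [← h] at h1
    exact hb x h1
  have h6 : M.a x ≠ M.a y := fun h => hne (ct10_a_inj M h)
  have h7 : y ≠ M.a y := fun h => M.a1 y h.symm
  let C : D → Bool := fun d => decide (d = x ∨ d = M.a x ∨ d = y ∨ d = M.a y)
  have hCd : ∀ d, C d = true ↔ (d = x ∨ d = M.a x ∨ d = y ∨ d = M.a y) := fun d => by simp [C]
  have hC : ∀ d, C (M.a d) = C d := by
    intro d
    rw [Bool.eq_iff_iff, hCd, hCd]
    constructor
    · rintro (h | h | h | h)
      · right; left; rw [← h, M.a2]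
      · left; exact ct10_a_inj M h
      · right; right; right; rw [← h, M.a2]
      · right; right; left; exact ct10_a_inj M h
    · rintro (h | h | h | h)
      · right; left; rw [h]
      · left; rw [h, M.a2]
      · right; right; right; rw [h]
      · right; right; left; rw [h, M.a2]
  have hfour : ∀ Z, M.Even Z → 4 ∣ Nat.card {d : D // Z d = true ∧ C d = true} := by
    intro Z hZ
    obtain ⟨φ, hφ, hZφ⟩ := hp Z hZ
    have e1 : φ x = φ y := face_eq M hφ h1
    have e2 : φ (M.a x) = φ (M.a y) := face_eq M hφ h2
    have e3 : Z x = Z y := by rw [hZφ, hZφ, e1, e2]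
    rw [Nat.card_eq_fintype_card, Fintype.card_subtype]
    by_cases hz : Z x = true
    · have : (Finset.univ.filter (fun d => Z d = true ∧ C d = true)) =
          ({x, M.a x, y, M.a y} : Finset D) := by
        ext d
        simp only [Finset.mem_filter, Finset.mem_univ, true_and, Finset.mem_insert,
          Finset.mem_singleton, hCd]
        constructor
        · exact fun h => h.2
        · intro h
          refine ⟨?_, h⟩
          rcases h with h | h | h | h
          · rw [h, hz]
          · rw [h, hZ.1, hz]
          · rw [h, ← e3, hz]
          · rw [h, hZ.1, ← e3, hz]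
      rw [this, Finset.card_insert_of_notMem, Finset.card_insert_of_notMem,
        Finset.card_insert_of_notMem, Finset.card_singleton]
      · simpa using h7
      · simp only [Finset.mem_insert, Finset.mem_singleton, not_or]
        exact ⟨h5, h6⟩
      · simp only [Finset.mem_insert, Finset.mem_singleton, not_or]
        exact ⟨h3, hne, h4⟩
    · have : (Finset.univ.filter (fun d => Z d = true ∧ C d = true)) = ∅ := by
        ext d
        simp only [Finset.mem_filter, Finset.mem_univ, true_and, Finset.notMem_empty, iff_false,
          hCd, not_and]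
        intro h h'
        rcases h' with h' | h' | h' | h'
        · rw [h'] at h; exact hz h
        · rw [h', hZ.1] at h; exact hz h
        · rw [h', ← e3] at h; exact hz h
        · rw [h', hZ.1, ← e3] at h; exact hz h
      rw [this, Finset.card_empty]
      exact dvd_zero 4
  obtain ⟨X, hX, hXC⟩ := cut_of_orth M C hC hfour
  have hx : (X x ^^ X (M.a x)) = true := by rw [← hXC, hCd]; exact Or.inl rfl
  have hy : (X y ^^ X (M.a y)) = true := by rw [← hXC, hCd]; exact Or.inr (Or.inr (Or.inl rfl))
  have hin : ∃ d, X d = true := by
    by_cases h : X x = true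
    · exact ⟨x, h⟩
    · exact ⟨M.a x, by simp only [Bool.not_eq_true] at h; rw [h] at hx; simpa using hx⟩
  have hout : ∃ d, X d = false := by
    by_cases h : X x = true
    · exact ⟨M.a x, by rw [h] at hx; simpa using hx⟩
    · exact ⟨x, by simpa using h⟩
  have hbd := hc X hX hin hout
  unfold CMap.bd at hbd
  rw [Nat.card_eq_fintype_card, Fintype.card_subtype] at hbd
  have hsub : (Finset.univ.filter (fun d => X d = true ∧ X (M.a d) = false)) ⊆
      ({if X x = true then x else M.a x, if X y = true then y else M.a y} : Finset D) := by
    intro d hd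
    simp only [Finset.mem_filter, Finset.mem_univ, true_and] at hd
    obtain ⟨hd1, hd2⟩ := hd
    have hCt : C d = true := by rw [hXC, hd1, hd2]; rfl
    simp only [Finset.mem_insert, Finset.mem_singleton]
    rcases (hCd d).1 hCt with h | h | h | h
    · left
      subst h
      rw [if_pos hd1]
    · left
      subst h
      rw [M.a2] at hd2
      rw [hd2]
      rfl
    · right
      subst h
      rw [if_pos hd1]
    · right
      subst h
      rw [M.a2] at hd2
      rw [hd2]
      rfl
  have h8 := Finset.card_le_card hsub
  have h9 := Finset.card_le_two (a := if X x = true then x else M.a x)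
    (b := if X y = true then y else M.a y)
  omega

/-- the six darts of three edges -/
def Ct12Six (x y z d : D) : Prop :=
  d = x ∨ d = M.a x ∨ d = y ∨ d = M.a y ∨ d = z ∨ d = M.a z

theorem ct12_next1 [Finite D] (hb : ∀ d, ¬ M.Face d (M.a d)) {x y z : D}
    (h1 : M.Face (M.a x) y) (h2 : M.Face (M.a y) z) (h3 : M.Face (M.a z) x) (X : D → Bool)
    (hX : M.VSet X) (hs : ∀ d, X d = true → Ct12Six M x y z d) (ha : X (M.a x) = false)
    (hx : X x = true) : M.s x = y := by
  have hsx : X (M.s x) = true := by rw [hX, hx]
  have hf : M.Face (M.a x) (M.s x) := ⟨1, by simp [CMap.f, M.a2]⟩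
  rcases hs _ hsx with h | h | h | h | h | h
  · exact absurd h (M.s1 x)
  · rw [h, ha] at hsx
    exact absurd hsx (by decide)
  · exact h
  · rw [h] at hf
    exact absurd (face_trans M (face_symm M h1) hf) (hb y)
  · rw [h] at hf
    exact absurd (face_trans M (face_symm M h1) (face_trans M hf (face_symm M h2))) (hb y)
  · rw [h] at hf
    exact absurd (face_symm M (face_trans M hf h3)) (hb x)

theorem ct12_next2 [Finite D] (hb : ∀ d, ¬ M.Face d (M.a d)) {x y z : D}
    (h1 : M.Face (M.a x) y) (h2 : M.Face (M.a y) z) (h3 : M.Face (M.a z) x) (X : D → Bool)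
    (hX : M.VSet X) (hs : ∀ d, X d = true → Ct12Six M x y z d) (ha : X x = false)
    (hx : X (M.a x) = true) : M.s (M.a x) = M.a z := by
  have hsx : X (M.s (M.a x)) = true := by rw [hX, hx]
  have hf : M.Face x (M.s (M.a x)) := ⟨1, by simp [CMap.f]⟩
  rcases hs _ hsx with h | h | h | h | h | h
  · rw [h, ha] at hsx
    exact absurd hsx (by decide)
  · exact absurd h (M.s1 _)
  · rw [h] at hf
    exact absurd (face_trans M hf (face_symm M h1)) (hb x)
  · rw [h] at hf
    have : M.Face z (M.a z) := face_trans M (face_symm M h2)
      (face_symm M (face_trans M h3 hf))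
    exact absurd this (hb z)
  · rw [h] at hf
    exact absurd (face_symm M (face_trans M h3 hf)) (hb z)
  · exact h

/-- CT-12b -/
theorem faces3 [Finite D] (hp : M.Planar) (h4 : M.Cyc4) (hb : ∀ d, ¬ M.Face d (M.a d)) {x y z : D}
    (h1 : M.Face (M.a x) y) (h2 : M.Face (M.a y) z) (h3 : M.Face (M.a z) x) :
    (y = M.s x ∧ z = M.s y) ∨ (M.a z = M.s (M.a x) ∧ M.a y = M.s (M.a z)) := by
  classical
  have : Fintype D := Fintype.ofFinite D
  have i1 : M.Face y (M.a x) := face_symm M h1
  have i2 : M.Face z (M.a y) := face_symm M h2
  have i3 : M.Face x (M.a z) := face_symm M h3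
  -- equal darts
  have n1 : ∀ d, d ≠ M.a d := fun d h => M.a1 d h.symm
  have exy : x ≠ y := fun h => hb x (by have := i1; rw [← h] at this; exact this)
  have eyz : y ≠ z := fun h => hb y (by have := i2; rw [← h] at this; exact this)
  have ezx : z ≠ x := fun h => hb z (by have := i3; rw [← h] at this; exact this)
  have exay : x ≠ M.a y := by
    intro h
    have h5 : M.Face x z := by rw [h]; exact h2
    exact hb z (face_trans M (face_symm M h5) i3)
  have eyaz : y ≠ M.a z := by
    intro h
    have h5 : M.Face y x := by rw [h]; exact h3
    exact hb x (face_trans M (face_symm M h5) i1)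
  have ezax : z ≠ M.a x := by
    intro h
    have h5 : M.Face z y := by rw [h]; exact h1
    exact hb y (face_trans M (face_symm M h5) i2)
  have exaz : x ≠ M.a z := by
    intro h
    apply ezax
    rw [h, M.a2]
  have eyax : y ≠ M.a x := by
    intro h
    apply exay
    rw [h, M.a2]
  have ezay : z ≠ M.a y := by
    intro h
    apply eyaz
    rw [h, M.a2]
  have eaxy : M.a x ≠ M.a y := fun h => exy (ct10_a_inj M h)
  have eayz : M.a y ≠ M.a z := fun h => eyz (ct10_a_inj M h)
  have eazx : M.a z ≠ M.a x := fun h => ezx (ct10_a_inj M h)
  let C : D → Bool := fun d => decide (Ct12Six M x y z d)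
  have hCd : ∀ d, C d = true ↔ Ct12Six M x y z d := fun d => by simp [C]
  have hC : ∀ d, C (M.a d) = C d := by
    intro d
    rw [Bool.eq_iff_iff, hCd, hCd]
    unfold Ct12Six
    constructor
    · rintro (h | h | h | h | h | h)
      · right; left; rw [← h, M.a2]
      · left; exact ct10_a_inj M h
      · right; right; right; left; rw [← h, M.a2]
      · right; right; left; exact ct10_a_inj M h
      · right; right; right; right; right; rw [← h, M.a2]
      · right; right; right; right; left; exact ct10_a_inj M h
    · rintro (h | h | h | h | h | h)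
      · right; left; rw [h]
      · left; rw [h, M.a2]
      · right; right; right; left; rw [h]
      · right; right; left; rw [h, M.a2]
      · right; right; right; right; right; rw [h]
      · right; right; right; right; left; rw [h, M.a2]
  have hfour : ∀ Z, M.Even Z → 4 ∣ Nat.card {d : D // Z d = true ∧ C d = true} := by
    intro Z hZ
    obtain ⟨φ, hφ, hZφ⟩ := hp Z hZ
    have e1 : φ (M.a x) = φ y := face_eq M hφ h1
    have e2 : φ (M.a y) = φ z := face_eq M hφ h2
    have e3 : φ (M.a z) = φ x := face_eq M hφ h3
    rw [Nat.card_eq_fintype_card, Fintype.card_subtype]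
    have hset : (Finset.univ.filter (fun d => Z d = true ∧ C d = true)) =
        ({x, M.a x, y, M.a y, z, M.a z} : Finset D).filter (fun d => Z d = true) := by
      ext d
      simp only [Finset.mem_filter, Finset.mem_univ, true_and, Finset.mem_insert,
        Finset.mem_singleton, hCd]
      unfold Ct12Six
      tauto
    rw [hset, Finset.card_filter, Finset.sum_insert, Finset.sum_insert, Finset.sum_insert,
      Finset.sum_insert, Finset.sum_insert, Finset.sum_singleton]
    · rw [hZ.1, hZ.1, hZ.1, hZφ x, hZφ y, hZφ z, e1, e2, e3]
      cases φ x <;> cases φ y <;> cases φ z <;> decide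
    · simpa using n1 z
    · simp only [Finset.mem_insert, Finset.mem_singleton, not_or]
      exact ⟨ezay.symm, eayz⟩
    · simp only [Finset.mem_insert, Finset.mem_singleton, not_or]
      exact ⟨n1 y, eyz, eyaz⟩
    · simp only [Finset.mem_insert, Finset.mem_singleton, not_or]
      exact ⟨eyax.symm, eaxy, ezax.symm, eazx.symm⟩
    · simp only [Finset.mem_insert, Finset.mem_singleton, not_or]
      exact ⟨n1 x, exy, exay, ezx.symm, exaz⟩
  obtain ⟨X₀, hX₀, hXC₀⟩ := cut_of_orth M C hC hfour
  -- the side with one vertex
  have hbdle : M.bd X₀ ≤ 3 := by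
    unfold CMap.bd
    rw [Nat.card_eq_fintype_card, Fintype.card_subtype]
    have hsub : (Finset.univ.filter (fun d => X₀ d = true ∧ X₀ (M.a d) = false)) ⊆
        ({if X₀ x = true then x else M.a x, if X₀ y = true then y else M.a y,
          if X₀ z = true then z else M.a z} : Finset D) := by
      intro d hd
      simp only [Finset.mem_filter, Finset.mem_univ, true_and] at hd
      obtain ⟨hd1, hd2⟩ := hd
      have hCt : C d = true := by rw [hXC₀, hd1, hd2]; rfl
      simp only [Finset.mem_insert, Finset.mem_singleton]
      rcases (hCd d).1 hCt with h | h | h | h | h | h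
      · left
        subst h
        rw [if_pos hd1]
      · left
        subst h
        rw [M.a2] at hd2
        rw [hd2]
        rfl
      · right; left
        subst h
        rw [if_pos hd1]
      · right; left
        subst h
        rw [M.a2] at hd2
        rw [hd2]
        rfl
      · right; right
        subst h
        rw [if_pos hd1]
      · right; right
        subst h
        rw [M.a2] at hd2
        rw [hd2]
        rfl
    exact (Finset.card_le_card hsub).trans Finset.card_le_three
  obtain ⟨X, hX, hXC, v, hv⟩ : ∃ X : D → Bool, M.VSet X ∧ (∀ d, C d = (X d ^^ X (M.a d))) ∧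
      ∃ v, ∀ d, X d = true → d = v ∨ d = M.s v ∨ d = M.s (M.s v) := by
    rcases h4 X₀ hX₀ hbdle with ⟨v, hv⟩ | ⟨v, hv⟩
    · exact ⟨X₀, hX₀, hXC₀, v, hv⟩
    · refine ⟨fun d => !X₀ d, fun d => ?_, fun d => ?_, v, fun d hd => hv d (by simpa using hd)⟩
      · change (!X₀ (M.s d)) = !X₀ d
        rw [hX₀]
      · rw [hXC₀]
        beta_reduce
        generalize X₀ d = p
        generalize X₀ (M.a d) = q
        cases p <;> cases q <;> rfl
  have hCx : C x = true := by rw [hCd]; exact Or.inl rfl
  have hCy : C y = true := by rw [hCd]; exact Or.inr (Or.inr (Or.inl rfl))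
  have hCz : C z = true := by
    rw [hCd]; exact Or.inr (Or.inr (Or.inr (Or.inr (Or.inl rfl))))
  have hsix : ∀ d, X d = true → Ct12Six M x y z d := by
    have hpick : ∀ w, C w = true → X (if X w = true then w else M.a w) = true := by
      intro w hw
      by_cases h : X w = true
      · rw [if_pos h, h]
      · rw [if_neg h]
        simp only [Bool.not_eq_true] at h
        rw [hXC, h] at hw
        simpa using hw
    have hsub : ({if X x = true then x else M.a x, if X y = true then y else M.a y,
          if X z = true then z else M.a z} : Finset D) ⊆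
            Finset.univ.filter (fun d => X d = true) := by
      intro d hd
      simp only [Finset.mem_insert, Finset.mem_singleton] at hd
      simp only [Finset.mem_filter, Finset.mem_univ, true_and]
      rcases hd with h | h | h
      · rw [h]; exact hpick x hCx
      · rw [h]; exact hpick y hCy
      · rw [h]; exact hpick z hCz
    have hcard : ({if X x = true then x else M.a x, if X y = true then y else M.a y,
          if X z = true then z else M.a z} : Finset D).card = 3 := by
      rw [Finset.card_eq_three]
      refine ⟨_, _, _, ?_, ?_, ?_, rfl⟩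
      · split_ifs
        · exact exy
        · exact exay
        · exact eyax.symm
        · exact eaxy
      · split_ifs
        · exact ezx.symm
        · exact exaz
        · exact ezax.symm
        · exact eazx.symm
      · split_ifs
        · exact eyz
        · exact eyaz
        · exact ezay.symm
        · exact eayz
    have hle : (Finset.univ.filter (fun d => X d = true)).card ≤ 3 := by
      have : (Finset.univ.filter (fun d => X d = true)) ⊆ ({v, M.s v, M.s (M.s v)} : Finset D) := by
        intro d hd
        simp only [Finset.mem_filter, Finset.mem_univ, true_and] at hd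
        simp only [Finset.mem_insert, Finset.mem_singleton]
        exact hv d hd
      exact (Finset.card_le_card this).trans Finset.card_le_three
    have heq := Finset.eq_of_subset_of_card_le hsub (by rw [hcard]; exact hle)
    intro d hd
    have hd' : d ∈ Finset.univ.filter (fun d => X d = true) := by simpa using hd
    rw [← heq] at hd'
    simp only [Finset.mem_insert, Finset.mem_singleton] at hd'
    unfold Ct12Six
    rcases hd' with h | h | h
    · split_ifs at h <;> tauto
    · split_ifs at h <;> tauto
    · split_ifs at h <;> tauto
  have hno : ∀ d, X d = true → X (M.a d) = false := by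
    intro d hd
    have := hXC d
    rw [(hCd d).2 (hsix d hd), hd] at this
    simpa using this.symm
  have hrot : ∀ d, X d = true → Ct12Six M y z x d := by
    intro d hd
    have := hsix d hd
    unfold Ct12Six at *
    tauto
  have hrot' : ∀ d, X d = true → Ct12Six M z x y d := by
    intro d hd
    have := hsix d hd
    unfold Ct12Six at *
    tauto
  by_cases hx : X x = true
  · left
    have e1 := ct12_next1 M hb h1 h2 h3 X hX hsix (hno x hx) hx
    have hy : X y = true := by rw [← e1, hX, hx]
    have e2 := ct12_next1 M hb h2 h3 h1 X hX hrot (hno y hy) hy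
    exact ⟨e1.symm, e2.symm⟩
  · right
    simp only [Bool.not_eq_true] at hx
    have hax : X (M.a x) = true := by
      have := hXC x
      rw [hCx, hx] at this
      simpa using this.symm
    have e1 := ct12_next2 M hb h1 h2 h3 X hX hsix hx hax
    have hz : X (M.a z) = true := by rw [← e1, hX, hax]
    have hz' : X z = false := by
      have := hno _ hz
      rwa [M.a2] at this
    have e2 := ct12_next2 M hb h3 h1 h2 X hX hrot' hz' hz
    exact ⟨e1.symm, e2.symm⟩

end Pool.Agent.Helper17.CT
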